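import Pool.Agent.H37.Ck2

set_option autoImplicit false

open Pool.Agent.H37.Ck

theorem Pool.Agent.Results.MP_e28e82_lc.WholeCake.result (α : ℝ) (hα : 0 < α) (M : Mech) :
    M.Whole → M.Truthful → ¬ M.ApproxProp α :=
  fun hw ht => main hα M hw ht
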